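import Pool.Agent.H34.ZN.Targets

/-!
Board zn: the Mellin transform of the sum over the eigenvalues is bounded on vertical strips.
-/

set_option autoImplicit false

namespace Pool.Agent.H23.ZN

open MeasureTheory Pool.Agent.H27.L1.H34.GM Pool.Agent.H27.L1.H34.GZ Pool.Agent.H27.L1.H34.GU
  Pool.Agent.H27.L1.H34.GA Pool.Agent.H34.ZN

/-- a weight function is bounded -/
lemma psi_bd (ψ : ℝ → ℂ) (r0 : ℝ) (hr0 : 1 ≤ r0) (hc : ContinuousOn ψ (Set.Ioi 0))
    (hs : ∀ r : ℝ, 0 < r → ψ r ≠ 0 → r0⁻¹ ≤ r ∧ r ≤ r0) :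
    ∃ M : ℝ, 0 ≤ M ∧ ∀ r : ℝ, 0 < r → ‖ψ r‖ ≤ M := by
  have h0 : 0 < r0⁻¹ := by positivity
  have h1 : ContinuousOn ψ (Set.Icc r0⁻¹ r0) :=
    hc.mono (fun r hr => lt_of_lt_of_le h0 hr.1)
  obtain ⟨M, hM⟩ := isCompact_Icc.exists_bound_of_continuousOn h1
  refine ⟨max M 0, le_max_right _ _, fun r hr => ?_⟩
  by_cases h : ψ r = 0
  · rw [h, norm_zero]
    exact le_max_right _ _
  · exact (hM r (hs r hr h)).trans (le_max_left _ _)

/-- the sum vanishes near `0` and is bounded on `(0, 1]` -/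
lemma th_bd (m : ℕ) (lam : ℕ → ℂ) (ψ : ℝ → ℂ) (B r0 : ℝ) (hm : 1 ≤ m) (hr0 : 1 ≤ r0)
    (hc : ContinuousOn ψ (Set.Ioi 0))
    (hs : ∀ r : ℝ, 0 < r → ψ r ≠ 0 → r0⁻¹ ≤ r ∧ r ≤ r0)
    (hl : ∀ n : ℕ, 1 ≤ n → ‖(n : ℂ) ^ (((m : ℂ) - 1) / 2) * lam n‖ ≤ B * (n : ℝ) ^ m) :
    ∃ A : ℝ, 0 ≤ A ∧ ∀ r : ℝ, 0 < r → r ≤ 1 →
      ‖thA m ψ lam r‖ ≤ A ∧ (r < r0⁻¹ → thA m ψ lam r = 0) := by
  obtain ⟨M, hM0, hM⟩ := psi_bd ψ r0 hr0 hc hs
  have hr0' : 0 < r0 := by linarith
  have hm0 : (0 : ℝ) < m := by exact_mod_cast hm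
  have hB : 0 ≤ B := by
    have := hl 1 le_rfl
    simp only [Nat.cast_one, one_pow, mul_one] at this
    exact (norm_nonneg _).trans this
  -- the nonzero terms
  have key : ∀ r : ℝ, 0 < r → ∀ n : ℕ, 1 ≤ n →
      ψ (r * (n : ℝ) ^ (-(1 / (m : ℝ)))) ≠ 0 → (n : ℝ) ^ (1 / (m : ℝ)) ≤ r * r0 := by
    intro r hr n hn h
    have hn0 : (0 : ℝ) < n := by exact_mod_cast hn
    have h1 : 0 < (n : ℝ) ^ (-(1 / (m : ℝ))) := Real.rpow_pos_of_pos hn0 _
    have h2 := (hs _ (mul_pos hr h1) h).1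
    rw [Real.rpow_neg hn0.le] at h2
    have h3 : 0 < (n : ℝ) ^ (1 / (m : ℝ)) := Real.rpow_pos_of_pos hn0 _
    have h4 : r0⁻¹ * (n : ℝ) ^ (1 / (m : ℝ)) ≤ r := by
      have := mul_le_mul_of_nonneg_right h2 h3.le
      rwa [mul_assoc, inv_mul_cancel₀ h3.ne', mul_one] at this
    calc (n : ℝ) ^ (1 / (m : ℝ)) = r0 * (r0⁻¹ * (n : ℝ) ^ (1 / (m : ℝ))) := by
          rw [← mul_assoc, mul_inv_cancel₀ hr0'.ne', one_mul]
      _ ≤ r0 * r := mul_le_mul_of_nonneg_left h4 hr0'.le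
      _ = r * r0 := mul_comm _ _
  obtain ⟨K, hK⟩ : ∃ K : ℕ, r0 ^ m < K := exists_nat_gt _
  refine ⟨∑ n ∈ Finset.range K, B * (n : ℝ) ^ m * M, Finset.sum_nonneg fun n _ => by positivity,
    fun r hr hr1 => ⟨?_, ?_⟩⟩
  · -- finite sum
    have hfin : thA m ψ lam r = ∑ n ∈ Finset.range K, (if 1 ≤ n then
        (n : ℂ) ^ (((m : ℂ) - 1) / 2) * lam n * ψ (r * (n : ℝ) ^ (-(1 / (m : ℝ)))) else 0) := by
      refine tsum_eq_sum fun n hn => ?_
      rw [Finset.mem_range, not_lt] at hn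
      split_ifs with h1
      · have h2 : ψ (r * (n : ℝ) ^ (-(1 / (m : ℝ)))) = 0 := by
          by_contra h
          have h3 := key r hr n h1 h
          have hn0 : (0 : ℝ) ≤ n := Nat.cast_nonneg n
          have h4 : (n : ℝ) ≤ r0 ^ m := by
            have h5 : ((n : ℝ) ^ (1 / (m : ℝ))) ^ m ≤ (r * r0) ^ m :=
              pow_le_pow_left₀ (Real.rpow_nonneg hn0 _) h3 m
            rw [← Real.rpow_natCast, ← Real.rpow_mul hn0, one_div_mul_cancel hm0.ne',
              Real.rpow_one] at h5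
            refine h5.trans (pow_le_pow_left₀ (by positivity) ?_ m)
            calc r * r0 ≤ 1 * r0 := mul_le_mul_of_nonneg_right hr1 hr0'.le
              _ = r0 := one_mul _
          have h6 : (K : ℝ) ≤ n := by exact_mod_cast hn
          linarith
        rw [h2, mul_zero]
      · rfl
    rw [hfin]
    refine (norm_sum_le _ _).trans (Finset.sum_le_sum fun n _ => ?_)
    split_ifs with h1
    · rw [norm_mul]
      have hn0 : (0 : ℝ) < n := by exact_mod_cast h1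
      exact mul_le_mul (hl n h1) (hM _ (mul_pos hr (Real.rpow_pos_of_pos hn0 _)))
        (norm_nonneg _) (by positivity)
    · rw [norm_zero]
      positivity
  · -- the sum vanishes
    intro hr2
    have : ∀ n : ℕ, (if 1 ≤ n then
        (n : ℂ) ^ (((m : ℂ) - 1) / 2) * lam n * ψ (r * (n : ℝ) ^ (-(1 / (m : ℝ)))) else 0) = 0 := by
      intro n
      split_ifs with h1
      · have h2 : ψ (r * (n : ℝ) ^ (-(1 / (m : ℝ)))) = 0 := by
          by_contra h
          have h3 := key r hr n h1 h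
          have h4 : (1 : ℝ) ≤ (n : ℝ) ^ (1 / (m : ℝ)) :=
            Real.one_le_rpow (by exact_mod_cast h1) (by positivity)
          have h5 : r * r0 < 1 := by
            calc r * r0 < r0⁻¹ * r0 := mul_lt_mul_of_pos_right hr2 hr0'
              _ = 1 := inv_mul_cancel₀ hr0'.ne'
          linarith
        rw [h2, mul_zero]
      · rfl
    rw [thA]
    simp only [this, tsum_zero]

theorem pf_LMS : T_LMS := by
  intro m lam ψ B r0 a b hm hr0 hc hs hl hW
  obtain ⟨A, hA0, hA⟩ := th_bd m lam ψ B r0 hm hr0 hc hs hl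
  have hr0' : 0 < r0 := by linarith
  have hm0 : (0 : ℝ) < m := by exact_mod_cast hm
  -- the exponents
  obtain ⟨q, hq⟩ : ∃ q : ℝ, q = m * (|a| + |b| + m) + 1 := ⟨_, rfl⟩
  have hq0 : 0 ≤ q := by rw [hq]; positivity
  obtain ⟨K, hK⟩ : ∃ K : ℕ, q + 2 < K := exists_nat_gt _
  obtain ⟨C, hC⟩ := hW.dec K
  have hC0 : 0 ≤ C := by
    have := hC 1 le_rfl
    rw [Real.one_rpow, mul_one] at this
    exact (norm_nonneg _).trans this
  obtain ⟨g, hg⟩ : ∃ g : ℝ → ℝ, g = fun r => (Set.Icc r0⁻¹ 1).indicator (fun _ => A * r0 ^ q) r +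
      (Set.Ioi (1 : ℝ)).indicator (fun r => C * r ^ (-2 : ℝ)) r := ⟨_, rfl⟩
  have hgi : Integrable g (volume.restrict (Set.Ioi (0 : ℝ))) := by
    rw [hg]
    refine Integrable.add ?_ ?_
    · refine (IntegrableOn.integrable_indicator ?_ measurableSet_Icc).restrict
      exact continuousOn_const.integrableOn_Icc
    · refine (IntegrableOn.integrable_indicator ?_ measurableSet_Ioi).restrict
      exact (integrableOn_Ioi_rpow_of_lt (by norm_num) zero_lt_one).const_mul C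
  refine ⟨∫ r in Set.Ioi (0 : ℝ), g r, fun s hs1 hs2 => ?_⟩
  refine norm_integral_le_of_norm_le hgi ?_
  refine (ae_restrict_iff' measurableSet_Ioi).2 (Filter.Eventually.of_forall fun r hr => ?_)
  have hr : 0 < r := hr
  rw [norm_mul, Complex.norm_cpow_eq_rpow_re_of_pos hr]
  -- the exponent
  obtain ⟨e, he⟩ : ∃ e : ℝ, e = (-((m : ℂ) * (s + ((m : ℂ) - 1) / 2)) - 1).re := ⟨_, rfl⟩
  have he' : e = -(m * (s.re + (m - 1) / 2)) - 1 := by
    rw [he]
    simp [Complex.mul_re, Complex.add_re, Complex.sub_re, Complex.div_ofNat_re]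
  have hsab : |s.re| ≤ |a| + |b| := by
    rw [abs_le]
    constructor
    · have := neg_abs_le a
      have := abs_nonneg b
      linarith
    · have := le_abs_self b
      have := abs_nonneg a
      linarith
  have heq : |e| ≤ q := by
    rw [he', hq]
    have h1 : |s.re + ((m : ℝ) - 1) / 2| ≤ |a| + |b| + m := by
      have h2 : |((m : ℝ) - 1) / 2| ≤ m := by
        rw [abs_le]
        have : (1 : ℝ) ≤ m := by exact_mod_cast hm
        constructor <;> linarith
      exact (abs_add_le _ _).trans (add_le_add hsab h2)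
    calc |-((m : ℝ) * (s.re + (m - 1) / 2)) - 1| ≤ |-((m : ℝ) * (s.re + (m - 1) / 2))| + |(1 : ℝ)| :=
          abs_sub _ _
      _ = m * |s.re + ((m : ℝ) - 1) / 2| + 1 := by
          rw [abs_neg, abs_mul, abs_one, abs_of_pos hm0]
      _ ≤ m * (|a| + |b| + m) + 1 := by
          have := mul_le_mul_of_nonneg_left h1 hm0.le
          linarith
  rw [← he, hg]
  simp only
  rcases lt_or_ge r r0⁻¹ with h1 | h1
  · have h0 : thA m ψ lam r = 0 := by
      refine (hA r hr ?_).2 h1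
      exact h1.le.trans (inv_le_one_of_one_le₀ hr0)
    rw [h0, norm_zero, zero_mul]
    refine add_nonneg (Set.indicator_nonneg (fun _ _ => by positivity) _)
      (Set.indicator_nonneg (fun x hx => ?_) _)
    have : 0 < x := zero_lt_one.trans hx
    positivity
  · rcases le_or_gt r 1 with h2 | h2
    · have h3 : r ∈ Set.Icc r0⁻¹ 1 := ⟨h1, h2⟩
      have h4 : r ∉ Set.Ioi (1 : ℝ) := not_lt.2 h2
      rw [Set.indicator_of_mem h3, Set.indicator_of_notMem h4, add_zero]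
      refine mul_le_mul (hA r hr h2).1 ?_ (Real.rpow_nonneg hr.le _) hA0
      calc r ^ e ≤ r ^ (-q) := Real.rpow_le_rpow_of_exponent_ge hr h2 (by
            have := neg_abs_le e
            linarith)
        _ ≤ (r0⁻¹) ^ (-q) := Real.rpow_le_rpow_of_nonpos (by positivity) h1 (by linarith)
        _ = r0 ^ q := by rw [Real.inv_rpow hr0'.le, Real.rpow_neg hr0'.le, inv_inv]
    · have h3 : r ∉ Set.Icc r0⁻¹ 1 := fun h => absurd h.2 (not_le.2 h2)
      have h4 : r ∈ Set.Ioi (1 : ℝ) := h2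
      rw [Set.indicator_of_notMem h3, Set.indicator_of_mem h4, zero_add]
      calc ‖thA m ψ lam r‖ * r ^ e ≤ C * r ^ (-(K : ℝ)) * r ^ q := by
            refine mul_le_mul (hC r h2.le) ?_ (Real.rpow_nonneg hr.le _)
              (mul_nonneg hC0 (Real.rpow_nonneg hr.le _))
            exact Real.rpow_le_rpow_of_exponent_le h2.le ((le_abs_self e).trans heq)
        _ = C * r ^ (-(K : ℝ) + q) := by rw [mul_assoc, ← Real.rpow_add hr]
        _ ≤ C * r ^ (-2 : ℝ) := by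
            refine mul_le_mul_of_nonneg_left ?_ hC0
            exact Real.rpow_le_rpow_of_exponent_le h2.le (by linarith)

end Pool.Agent.H23.ZN
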